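import Mathlib
import Pool.Agent.U139.OSI.Rich
import Pool.Agent.U139.OSI.Signs

/-!
# Constant sparsity does not give oblivious subspace injections (MP_59a663_pr, Q1 and Q2: no)

Let `V` be the span of the first `r` coordinate vectors. With probability tending to one as `r → ∞`,
uniformly in the sparsity `ζ ≤ C₁`, the embedding dimension `b ζ ≤ C₂ r` and `n ≥ r`, there is a coordinate
`i < r` such that each of its `ζ` buckets contains at least `L` further coordinates `N j l < r`. The vector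
`x = e_i - ∑ j l, ± e_{N j l} / L` then has norm at least one, and `‖Ωᵀ x‖²` has mean `(ζ - 1) / L` over
the signs. As `L` is arbitrary, no injectivity constant `α > 0` is possible.
-/

set_option autoImplicit false

open Matrix Finset

namespace Pool.Agent.Results.MP_59a663_pr.ConstantSparsityFails

/-- An outcome of the randomness: for every row `i` and every block `j` the sign of the nonzero
entry and its position inside the block. -/
abbrev Outcome (n b ζ : ℕ) : Type := Fin n → Fin ζ → Bool × Fin b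

/-- Probability of an event when all signs and all positions are independent and uniform, that is,
the uniform law on the finite product of all signs and positions. -/
noncomputable def prob {n b ζ : ℕ} (A : Set (Outcome n b ζ)) : ℝ :=
  (Nat.card A : ℝ) / (Nat.card (Outcome n b ζ) : ℝ)

/-- Expectation of a real function of the outcome under the same law. -/
noncomputable def mean {n b ζ : ℕ} (f : Outcome n b ζ → ℝ) : ℝ :=
  (∑ ω, f ω) / (Nat.card (Outcome n b ζ) : ℝ)

/-- The SparseStack matrix with `k = b * ζ` columns; the columns are indexed by the pairs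
(block, position in the block). Row `i` has in block `j` exactly one nonzero entry,
equal to plus or minus `1 / sqrt ζ`. -/
noncomputable def sparseStack {n b ζ : ℕ} (ω : Outcome n b ζ) :
    Matrix (Fin n) (Fin ζ × Fin b) ℝ :=
  fun i c => if (ω i c.1).2 = c.2 then (if (ω i c.1).1 then (1 : ℝ) else -1) / Real.sqrt ζ else 0

/-- The square of the Euclidean norm of a real vector. -/
def normSq {ι : Type} [Fintype ι] (x : ι → ℝ) : ℝ := ∑ i, x i ^ 2

/-- Injectivity on the subspace `V` with parameter `α`: `α ‖x‖² ≤ ‖Ωᵀ x‖²` for all `x ∈ V`. -/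
def InjectsOn {n b ζ : ℕ} (ω : Outcome n b ζ) (V : Submodule ℝ (Fin n → ℝ)) (α : ℝ) : Prop :=
  ∀ x ∈ V, α * normSq x ≤ normSq ((sparseStack ω)ᵀ.mulVec x)

/-- The SparseStack is an oblivious subspace injection for dimension `r` with parameter `α` and
failure probability `δ`: `E ‖Ωᵀ x‖² = ‖x‖²` for all `x`, and for every `r`-dimensional subspace `V`
the injectivity on `V` has probability at least `1 - δ`. -/
def IsOSI (n b ζ r : ℕ) (α δ : ℝ) : Prop :=
  (∀ x : Fin n → ℝ, mean (fun ω : Outcome n b ζ => normSq ((sparseStack ω)ᵀ.mulVec x)) = normSq x) ∧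
  ∀ V : Submodule ℝ (Fin n → ℝ), Module.finrank ℝ V = r →
    1 - δ ≤ prob {ω : Outcome n b ζ | InjectsOn ω V α}

section proof

open Pool.Agent.U139.OSI

variable {n b ζ : ℕ}

/-- the outcome with given signs and positions -/
def mk (σ : Fin n → Fin ζ → Bool) (s : Fin n → Fin ζ → Fin b) : Outcome n b ζ :=
  fun i j => (σ i j, s i j)

/-- signs and positions -/
def splitEquiv : ((Fin n → Fin ζ → Fin b) × (Fin n → Fin ζ → Bool)) ≃ Outcome n b ζ where
  toFun z := mk z.2 z.1
  invFun ω := (fun i j => (ω i j).2, fun i j => (ω i j).1)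
  left_inv _ := rfl
  right_inv _ := rfl

lemma normSq_stack (hζ : 1 ≤ ζ) (σ : Fin n → Fin ζ → Bool) (s : Fin n → Fin ζ → Fin b)
    (x : Fin n → ℝ) : normSq ((sparseStack (mk σ s))ᵀ.mulVec x) =
      (∑ j, ∑ p, ent σ s x j p ^ 2) / ζ := by
  have hζ0 : (0 : ℝ) < ζ := by exact_mod_cast hζ
  unfold normSq
  rw [Fintype.sum_prod_type, sum_div]
  refine sum_congr rfl fun j _ => ?_
  rw [sum_div]
  refine sum_congr rfl fun p _ => ?_
  have h1 : (sparseStack (mk σ s))ᵀ.mulVec x (j, p) = ent σ s x j p / Real.sqrt ζ := by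
    unfold Matrix.mulVec dotProduct ent
    rw [sum_div]
    refine sum_congr rfl fun u _ => ?_
    simp only [Matrix.transpose_apply, sparseStack, mk, sg]
    by_cases h1 : s u j = p
    · simp only [h1, if_true]
      exact div_mul_eq_mul_div _ _ _
    · simp only [h1, if_false]; ring
  rw [h1, div_pow, Real.sq_sqrt hζ0.le]

/-- the coordinate subspace -/
def coordSpace (r n : ℕ) (h : r ≤ n) : Submodule ℝ (Fin n → ℝ) :=
  Submodule.span ℝ (Set.range fun i : Fin r => (Pi.single (Fin.castLE h i) 1 : Fin n → ℝ))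

lemma finrank_coordSpace (r n : ℕ) (h : r ≤ n) : Module.finrank ℝ (coordSpace r n h) = r := by
  unfold coordSpace
  have h1 : LinearIndependent ℝ (fun i : Fin r => (Pi.single (Fin.castLE h i) 1 : Fin n → ℝ)) := by
    have h2 := (Pi.basisFun ℝ (Fin n)).linearIndependent.comp (Fin.castLE h)
      (Fin.castLE_injective h)
    have e : (⇑(Pi.basisFun ℝ (Fin n)) ∘ Fin.castLE h) =
        fun i : Fin r => (Pi.single (Fin.castLE h i) 1 : Fin n → ℝ) := by
      funext i
      simp
    rwa [e] at h2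
  rw [finrank_span_eq_card h1, Fintype.card_fin]

lemma tv_mem {L r : ℕ} (h : r ≤ n) (N : Fin ζ → Fin L → Fin r) (i : Fin r)
    (σ : Fin n → Fin ζ → Bool) :
    tv (fun j l => Fin.castLE h (N j l)) (Fin.castLE h i) σ ∈ coordSpace r n h := by
  have e : tv (fun j l => Fin.castLE h (N j l)) (Fin.castLE h i) σ =
      (Pi.single (Fin.castLE h i) 1 : Fin n → ℝ) - ∑ a : Fin ζ × Fin L,
        (sg (σ (Fin.castLE h i) a.1) * sg (σ (Fin.castLE h (N a.1 a.2)) a.1) / L) •
          (Pi.single (Fin.castLE h (N a.1 a.2)) 1 : Fin n → ℝ) := by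
    funext u
    unfold tv
    simp only [Pi.sub_apply, Finset.sum_apply, Pi.smul_apply, smul_eq_mul, Pi.single_apply]
    congr 1
    refine sum_congr rfl fun a _ => ?_
    by_cases hu : u = Fin.castLE h (N a.1 a.2)
    · simp [hu]
    · simp [hu]
  rw [e]
  refine Submodule.sub_mem _ (Submodule.subset_span ⟨i, rfl⟩) (Submodule.sum_mem _ fun a _ => ?_)
  exact Submodule.smul_mem _ _ (Submodule.subset_span ⟨_, rfl⟩)

/-- For rich positions few signs give injectivity. -/
lemma signs_bound {L M r : ℕ} (hL : 1 ≤ L) (hζ : 1 ≤ ζ) (h : r ≤ n)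
    (e : Option (Fin ζ × Fin L) × Fin M → Fin r) (he : Function.Injective e) {α : ℝ} (hα : 0 < α)
    (s : Fin n → Fin ζ → Fin b) (hs : Rich (fun z => Fin.castLE h (e z)) s)
    [DecidablePred fun σ : Fin n → Fin ζ → Bool => InjectsOn (mk σ s) (coordSpace r n h) α] :
    ((univ.filter fun σ : Fin n → Fin ζ → Bool =>
      InjectsOn (mk σ s) (coordSpace r n h) α).card : ℝ) ≤
      ζ / (L * α) * Fintype.card (Fin n → Fin ζ → Bool) := by
  obtain ⟨a, ha⟩ := hs
  unfold good at ha
  rw [mem_filter] at ha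
  have ha2 : ∀ k : Fin ζ × Fin L, ∃ a', s (Fin.castLE h (e (some k, a'))) k.1 =
      s (Fin.castLE h (e (none, a))) k.1 := fun k => ha.2 k (mem_univ _)
  choose t ht using ha2
  set N : Fin ζ → Fin L → Fin r := fun j l => e (some (j, l), t (j, l)) with hN
  set i : Fin r := e (none, a) with hi
  have hNinj : ∀ j, Function.Injective (fun l => Fin.castLE h (N j l)) := by
    intro j l l' hll
    have h1 := he (Fin.castLE_injective h hll)
    simp only [Prod.mk.injEq, Option.some.injEq] at h1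
    exact h1.1.2
  have hNi : ∀ j l, Fin.castLE h (N j l) ≠ Fin.castLE h i := by
    intro j l hc
    have h1 := he (Fin.castLE_injective h hc)
    simp at h1
  have hsN : ∀ j l, s (Fin.castLE h (N j l)) j = s (Fin.castLE h i) j := fun j l => ht (j, l)
  have hmom := sum_ent_sq (N := fun j l => Fin.castLE h (N j l)) hNinj (i := Fin.castLE h i) hNi
    hL hζ s hsN
  have hζ0 : (0 : ℝ) < ζ := by exact_mod_cast hζ
  have hL0 : (0 : ℝ) < L := by exact_mod_cast hL
  set G := univ.filter fun σ : Fin n → Fin ζ → Bool =>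
      InjectsOn (mk σ s) (coordSpace r n h) α with hG
  have h1 : (G.card : ℝ) * α ≤ ∑ σ : Fin n → Fin ζ → Bool,
      (∑ j, ∑ p, ent σ s (tv (fun j l => Fin.castLE h (N j l)) (Fin.castLE h i) σ) j p ^ 2) / ζ := by
    calc (G.card : ℝ) * α = ∑ σ ∈ G, α := by rw [sum_const, nsmul_eq_mul]
      _ ≤ ∑ σ ∈ G, (∑ j, ∑ p,
          ent σ s (tv (fun j l => Fin.castLE h (N j l)) (Fin.castLE h i) σ) j p ^ 2) / ζ := by
          refine sum_le_sum fun σ hσ => ?_
          rw [hG, mem_filter] at hσ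
          have h2 := hσ.2 _ (tv_mem h N i σ)
          rw [normSq_stack hζ] at h2
          refine le_trans ?_ h2
          have h3 : (1 : ℝ) ≤ normSq (tv (fun j l => Fin.castLE h (N j l)) (Fin.castLE h i) σ) := by
            unfold normSq
            have h4 := single_le_sum (f := fun u =>
              tv (fun j l => Fin.castLE h (N j l)) (Fin.castLE h i) σ u ^ 2)
              (fun u _ => sq_nonneg _) (mem_univ (Fin.castLE h i))
            simp only [tv_self hNi, one_pow] at h4
            exact h4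
          nlinarith
      _ ≤ _ := sum_le_sum_of_subset_of_nonneg (subset_univ _) fun σ _ _ =>
          div_nonneg (sum_nonneg fun j _ => sum_nonneg fun p _ => sq_nonneg _) hζ0.le
  rw [← sum_div, hmom] at h1
  have h2 : (ζ : ℝ) * ((ζ : ℝ) - 1) / L * Fintype.card (Fin n → Fin ζ → Bool) / ζ =
      ((ζ : ℝ) - 1) / L * Fintype.card (Fin n → Fin ζ → Bool) := by
    field_simp
  rw [h2] at h1
  have h3 : (G.card : ℝ) ≤ ((ζ : ℝ) - 1) / L * Fintype.card (Fin n → Fin ζ → Bool) / α := by
    rw [le_div_iff₀ hα]; exact h1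
  refine h3.trans ?_
  have h4 : ((ζ : ℝ) - 1) / L * Fintype.card (Fin n → Fin ζ → Bool) / α =
      ((ζ : ℝ) - 1) / (L * α) * Fintype.card (Fin n → Fin ζ → Bool) := by
    field_simp
  rw [h4]
  refine mul_le_mul_of_nonneg_right ?_ (Nat.cast_nonneg _)
  refine div_le_div_of_nonneg_right (by linarith) (by positivity)

/-- The probability of injectivity on the coordinate subspace. -/
lemma prob_bound {L M r K : ℕ} (hL : 1 ≤ L) (hζ : 1 ≤ ζ) (hb : 1 ≤ b) (hM : 1 ≤ M) (h : r ≤ n)
    (hK : ζ * L ≤ K) (hr : (K + 1) * M ≤ r) {α : ℝ} (hα : 0 < α)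
    {β : ℝ} (hβ : 0 < β) (hβ1 : β ≤ 1) (hρ1 : (1 - 1 / (b : ℝ)) ^ M ≤ 1 - 2 * β) :
    prob {ω : Outcome n b ζ | InjectsOn ω (coordSpace r n h) α} ≤
      (K * (1 / (β ^ K * β ^ 2 * M)) + (1 - β ^ K) ^ M) + ζ / (L * α) := by
  classical
  have : Nonempty (Fin b) := ⟨⟨0, hb⟩⟩
  obtain ⟨e0⟩ : Nonempty (Option (Fin ζ × Fin L) × Fin M ↪ Fin r) := by
    apply Function.Embedding.nonempty_of_card_le
    rw [Fintype.card_prod, Fintype.card_option, Fintype.card_prod, Fintype.card_fin,
      Fintype.card_fin, Fintype.card_fin, Fintype.card_fin]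
    exact (Nat.mul_le_mul_right M (by omega)).trans hr
  obtain ⟨e, he⟩ : ∃ e : Option (Fin ζ × Fin L) × Fin M → Fin r, Function.Injective e :=
    ⟨e0, e0.injective⟩
  have he' : Function.Injective (fun z => Fin.castLE h (e z)) :=
    (Fin.castLE_injective h).comp he
  have hnr := not_rich hζ hb hM he' hβ hβ1 hρ1 hK
  set θ : ℝ := K * (1 / (β ^ K * β ^ 2 * M)) + (1 - β ^ K) ^ M with hθ
  set A : ℝ := (Fintype.card (Fin n → Fin ζ → Fin b) : ℝ) with hA
  set B : ℝ := (Fintype.card (Fin n → Fin ζ → Bool) : ℝ) with hB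
  have hA0 : 0 < A := by
    have : 0 < Fintype.card (Fin n → Fin ζ → Fin b) := Fintype.card_pos
    rw [hA]; exact_mod_cast this
  have hB0 : 0 < B := by
    have : 0 < Fintype.card (Fin n → Fin ζ → Bool) := Fintype.card_pos
    rw [hB]; exact_mod_cast this
  have hden : (Nat.card (Outcome n b ζ) : ℝ) = A * B := by
    rw [Nat.card_eq_fintype_card, ← Fintype.card_congr (splitEquiv (n := n) (b := b) (ζ := ζ)),
      Fintype.card_prod]
    push_cast
    rfl
  have hnum : (Nat.card {ω : Outcome n b ζ | InjectsOn ω (coordSpace r n h) α} : ℝ) =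
      ∑ s : Fin n → Fin ζ → Fin b, ((univ.filter fun σ : Fin n → Fin ζ → Bool =>
        InjectsOn (mk σ s) (coordSpace r n h) α).card : ℝ) := by
    have h1 : Nat.card {ω : Outcome n b ζ | InjectsOn ω (coordSpace r n h) α} =
        (univ.filter fun ω : Outcome n b ζ => InjectsOn ω (coordSpace r n h) α).card := by
      rw [Nat.card_eq_fintype_card]
      exact Fintype.card_subtype _
    rw [h1, card_filter]
    push_cast
    rw [← Equiv.sum_comp (splitEquiv (n := n) (b := b) (ζ := ζ)), Fintype.sum_prod_type]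
    refine sum_congr rfl fun s _ => ?_
    rw [card_filter]
    push_cast
    rfl
  unfold prob
  rw [hden, hnum, div_le_iff₀ (mul_pos hA0 hB0)]
  have hL0 : (0 : ℝ) < L := by exact_mod_cast hL
  have h1 : ∀ s : Fin n → Fin ζ → Fin b, ((univ.filter fun σ : Fin n → Fin ζ → Bool =>
        InjectsOn (mk σ s) (coordSpace r n h) α).card : ℝ) ≤
      ζ / (L * α) * B + (if ¬ Rich (fun z => Fin.castLE h (e z)) s then B else 0) := by
    intro s
    by_cases hs : Rich (fun z => Fin.castLE h (e z)) s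
    · rw [if_neg (by simpa using hs), add_zero]
      exact signs_bound hL hζ h e he hα s hs
    · rw [if_pos hs]
      have h2 : ((univ.filter fun σ : Fin n → Fin ζ → Bool =>
        InjectsOn (mk σ s) (coordSpace r n h) α).card : ℝ) ≤ B := by
        rw [hB, ← card_univ]
        exact_mod_cast card_le_card (filter_subset _ _)
      have h3 : 0 ≤ ζ / (L * α) * B := by positivity
      linarith
  refine (sum_le_sum fun s _ => h1 s).trans ?_
  rw [sum_add_distrib, sum_const, card_univ, nsmul_eq_mul, ← sum_filter, sum_const, nsmul_eq_mul]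
  have h2 : ((univ.filter fun s : Fin n → Fin ζ → Fin b =>
      ¬ Rich (fun z => Fin.castLE h (e z)) s).card : ℝ) * B ≤ (θ * A) * B :=
    mul_le_mul_of_nonneg_right hnr hB0.le
  calc _ ≤ A * (ζ / (L * α) * B) + (θ * A) * B := by linarith
    _ = (θ + ζ / (L * α)) * (A * B) := by ring

/-- the strong form -/
lemma strong (C₁ C₂ α η : ℝ) (hα : 0 < α) (hη : 0 < η) : ∃ r₀ : ℕ, ∀ r n : ℕ, r₀ ≤ r →
    ∀ h : r ≤ n, ∀ ζ b : ℕ, 1 ≤ ζ → 1 ≤ b → (ζ : ℝ) ≤ C₁ → ((b * ζ : ℕ) : ℝ) ≤ C₂ * r →
      prob {ω : Outcome n b ζ | InjectsOn ω (coordSpace r n h) α} < η := by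
  set Z : ℕ := ⌊C₁⌋₊ with hZ
  set L : ℕ := ⌊2 * Z / (α * η)⌋₊ + 1 with hLdef
  set K : ℕ := Z * L with hK
  set D : ℝ := max C₂ 1 with hD
  have hD1 : 1 ≤ D := le_max_right _ _
  set lam : ℝ := 1 / (2 * (K + 1) * D) with hlam
  have hlam0 : 0 < lam := by positivity
  set β : ℝ := (1 - Real.exp (-lam)) / 2 with hβdef
  have hexp : Real.exp (-lam) < 1 := by
    rw [Real.exp_lt_one_iff]; linarith
  have hexp0 : 0 < Real.exp (-lam) := Real.exp_pos _
  have hβ : 0 < β := by rw [hβdef]; linarith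
  have hβ1 : β ≤ 1 := by rw [hβdef]; linarith
  have hlim : Filter.Tendsto (fun M : ℕ => (K : ℝ) * (1 / (β ^ K * β ^ 2 * M)) + (1 - β ^ K) ^ M)
      Filter.atTop (nhds 0) := by
    have h1 : Filter.Tendsto (fun M : ℕ => (K : ℝ) * (1 / (β ^ K * β ^ 2 * M)))
        Filter.atTop (nhds 0) := by
      have h2 := (tendsto_one_div_atTop_nhds_zero_nat (𝕜 := ℝ)).const_mul
        ((K : ℝ) * (1 / (β ^ K * β ^ 2)))
      rw [mul_zero] at h2
      refine h2.congr fun M => ?_
      rw [mul_assoc, one_div_mul_one_div]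
    have h2 : Filter.Tendsto (fun M : ℕ => (1 - β ^ K) ^ M) Filter.atTop (nhds 0) := by
      apply tendsto_pow_atTop_nhds_zero_of_lt_one
      · have := pow_le_one₀ (n := K) hβ.le hβ1
        linarith
      · have := pow_pos hβ K
        linarith
    simpa using h1.add h2
  obtain ⟨M₀, hM₀⟩ := (hlim.eventually (gt_mem_nhds (half_pos hη))).exists_forall_of_atTop
  refine ⟨(K + 1) * (M₀ + 2), fun r n hr h ζ b hζ hb hζ1 hbζ => ?_⟩
  set M : ℕ := r / (K + 1) with hM
  have hM2 : M₀ + 2 ≤ M := by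
    rw [hM, Nat.le_div_iff_mul_le (by omega), mul_comm]
    exact hr
  have hMr : (K + 1) * M ≤ r := Nat.mul_div_le r (K + 1)
  have hMr2 : r < (K + 1) * (M + 1) := by
    rw [hM]
    exact Nat.lt_mul_div_succ r (by omega)
  have hζZ : ζ ≤ Z := Nat.le_floor hζ1
  have hb0 : (0 : ℝ) < b := by exact_mod_cast hb
  have hM0 : (0 : ℝ) < M := by
    have : 0 < M := by omega
    exact_mod_cast this
  have hrpos : (0 : ℝ) < r := by
    have : 0 < r := lt_of_lt_of_le (by positivity) hr
    exact_mod_cast this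
  have hbD : (b : ℝ) ≤ D * r := by
    have h1 : (b : ℝ) ≤ ((b * ζ : ℕ) : ℝ) := by
      have : b ≤ b * ζ := Nat.le_mul_of_pos_right b (by omega)
      exact_mod_cast this
    have h2 : C₂ * r ≤ D * r := mul_le_mul_of_nonneg_right (le_max_left _ _) hrpos.le
    linarith
  have hlamM : lam * b ≤ M := by
    have h1 : (r : ℝ) ≤ 2 * (K + 1) * M := by
      have h2 : r ≤ 2 * (K + 1) * M := by
        have : (K + 1) * (M + 1) ≤ (K + 1) * (2 * M) := Nat.mul_le_mul_left _ (by omega)
        calc r ≤ (K + 1) * (M + 1) := hMr2.le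
          _ ≤ (K + 1) * (2 * M) := this
          _ = 2 * (K + 1) * M := by ring
      exact_mod_cast h2
    have h3 : lam * b ≤ lam * (D * (2 * (K + 1) * M)) := by
      have : (b : ℝ) ≤ D * (2 * (K + 1) * M) :=
        hbD.trans (mul_le_mul_of_nonneg_left h1 (by linarith))
      exact mul_le_mul_of_nonneg_left this hlam0.le
    have h4 : lam * (D * (2 * (K + 1) * M)) = M := by
      rw [hlam]
      have : (0 : ℝ) < D := by linarith
      field_simp
    linarith
  have hρ1 : (1 - 1 / (b : ℝ)) ^ M ≤ 1 - 2 * β := by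
    have h1b : (1 : ℝ) / b ≤ 1 := by
      rw [div_le_one hb0]; exact_mod_cast hb
    have h2 : 1 - 1 / (b : ℝ) ≤ Real.exp (-(1 / b)) := Real.one_sub_le_exp_neg _
    calc (1 - 1 / (b : ℝ)) ^ M ≤ (Real.exp (-(1 / b))) ^ M := pow_le_pow_left₀ (by linarith) h2 _
      _ = Real.exp (-(M / b)) := by
        rw [← Real.exp_nat_mul]; congr 1; ring
      _ ≤ Real.exp (-lam) := by
        rw [Real.exp_le_exp, neg_le_neg_iff, le_div_iff₀ hb0]
        exact hlamM
      _ = 1 - 2 * β := by rw [hβdef]; ring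
  have hL1 : 1 ≤ L := by omega
  have hmain := prob_bound (n := n) (K := K) hL1 hζ hb (by omega) h
    (Nat.mul_le_mul_right L hζZ) hMr hα hβ hβ1 hρ1
  have hlast : (ζ : ℝ) / (L * α) < η / 2 := by
    have hL0 : (0 : ℝ) < L := by exact_mod_cast hL1
    rw [div_lt_div_iff₀ (by positivity) (by norm_num)]
    have h1 : 2 * (Z : ℝ) / (α * η) < L := by
      rw [hLdef]
      push_cast
      exact Nat.lt_floor_add_one _
    rw [div_lt_iff₀ (by positivity)] at h1
    have h2 : (ζ : ℝ) ≤ Z := by exact_mod_cast hζZ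
    nlinarith
  have h3 := hM₀ M (by omega)
  linarith

end proof

/-- **Constant sparsity does not give oblivious subspace injections.**
(1) For all constants `C₁, C₂` and all `α, η > 0`: for all large `r` and all `n ≥ r` there is an
`r`-dimensional subspace `V` on which every SparseStack with `ζ ≤ C₁` and `b ζ ≤ C₂ r` is injective with
parameter `α` with probability less than `η` only.
(2) The negated form of Q1.
(3) The negative answer to Q2: for `ζ = 4` and `k = 2 r`, where `r = 2 b` is large and `n ≥ r`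
arbitrary. -/
theorem result :
    (∀ C₁ C₂ α η : ℝ, 0 < α → 0 < η → ∃ r₀ : ℕ, ∀ r n : ℕ, r₀ ≤ r → r ≤ n →
      ∃ V : Submodule ℝ (Fin n → ℝ), Module.finrank ℝ V = r ∧
        ∀ ζ b : ℕ, 1 ≤ ζ → 1 ≤ b → (ζ : ℝ) ≤ C₁ → ((b * ζ : ℕ) : ℝ) ≤ C₂ * r →
          prob {ω : Outcome n b ζ | InjectsOn ω V α} < η) ∧
    (∀ c C₁ C₂ α₀ : ℝ, 0 < c → 0 < C₁ → 0 < C₂ → 0 < α₀ →
      ∃ n r : ℕ, 1 ≤ r ∧ r ≤ n ∧ (r : ℝ) ≤ c * (n / Real.log n) ∧
        ∀ ζ b : ℕ, 1 ≤ ζ → 1 ≤ b → (ζ : ℝ) ≤ C₁ → ((b * ζ : ℕ) : ℝ) ≤ C₂ * r →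
          ¬ IsOSI n b ζ r α₀ 0.01) ∧
    (∀ α₀ : ℝ, 0 < α₀ → ∃ r₀ : ℕ, ∀ b n : ℕ, r₀ ≤ 2 * b → 2 * b ≤ n →
      ¬ IsOSI n b 4 (2 * b) α₀ 0.01) := by
  refine ⟨?_, ?_, ?_⟩
  · intro C₁ C₂ α η hα hη
    obtain ⟨r₀, hr₀⟩ := strong C₁ C₂ α η hα hη
    refine ⟨r₀, fun r n hr h => ⟨coordSpace r n h, finrank_coordSpace r n h, ?_⟩⟩
    exact fun ζ b h1 h2 h3 h4 => hr₀ r n hr h ζ b h1 h2 h3 h4
  · intro c C₁ C₂ α₀ hc _ _ hα₀
    obtain ⟨r₀, hr₀⟩ := strong C₁ C₂ α₀ 0.99 hα₀ (by norm_num)
    set r := max r₀ 1 with hr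
    have hlim : Filter.Tendsto (fun n : ℕ => c * ((n : ℝ) / Real.log n)) Filter.atTop
        Filter.atTop := by
      refine Filter.Tendsto.const_mul_atTop hc ?_
      have h1 : Filter.Tendsto (fun x : ℝ => Real.log x / x) Filter.atTop (nhds 0) := by
        have := Real.isLittleO_log_id_atTop.tendsto_div_nhds_zero
        simpa using this
      have h2 : Filter.Tendsto (fun x : ℝ => x / Real.log x) Filter.atTop Filter.atTop := by
        have h3 : Filter.Tendsto (fun x : ℝ => Real.log x / x) Filter.atTop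
            (nhdsWithin 0 (Set.Ioi 0)) := by
          rw [tendsto_nhdsWithin_iff]
          refine ⟨h1, ?_⟩
          filter_upwards [Filter.eventually_gt_atTop 1] with x hx
          exact div_pos (Real.log_pos hx) (by linarith)
        refine (Filter.Tendsto.inv_tendsto_nhdsGT_zero h3).congr fun x => ?_
        simp
      exact h2.comp tendsto_natCast_atTop_atTop
    obtain ⟨n, hn1, hn2⟩ := ((hlim.eventually_ge_atTop (r : ℝ)).and
      (Filter.eventually_ge_atTop r)).exists
    refine ⟨n, r, le_max_right _ _, hn2, hn1, fun ζ b h1 h2 h3 h4 hOSI => ?_⟩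
    have h5 := hr₀ r n (le_max_left _ _) hn2 ζ b h1 h2 h3 h4
    have h6 := hOSI.2 (coordSpace r n hn2) (finrank_coordSpace r n hn2)
    norm_num at h6 h5
    linarith
  · intro α₀ hα₀
    obtain ⟨r₀, hr₀⟩ := strong 4 2 α₀ 0.99 hα₀ (by norm_num)
    refine ⟨max r₀ 2, fun b n hb hn hOSI => ?_⟩
    have hb1 : 1 ≤ b := by
      have := (le_max_right r₀ 2).trans hb
      omega
    have h5 := hr₀ (2 * b) n ((le_max_left _ _).trans hb) hn 4 b (by norm_num) hb1 (by norm_num)
      (by push_cast; linarith)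
    have h6 := hOSI.2 (coordSpace (2 * b) n hn) (finrank_coordSpace (2 * b) n hn)
    norm_num at h6 h5
    linarith

end Pool.Agent.Results.MP_59a663_pr.ConstantSparsityFails
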